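import Pool.Agent.H38.PWS.Stmts

/-! Row LLB of the board `pws`. -/

set_option autoImplicit false

namespace Pool.PWS

open ArithmeticFunction Finset Pool.MKP

theorem sigma_le_log (k : ℕ) : (sigma 1 k : ℝ) ≤ k * (1 + Real.log k) := by
  have h1 : (sigma 1 k : ℝ) = ∑ d ∈ k.divisors, (k : ℝ) * ((d : ℝ))⁻¹ := by
    rw [sigma_one_apply, ← Nat.sum_div_divisors k (fun d => d)]
    push_cast
    refine sum_congr rfl fun d hd => ?_
    have hd0 : (d : ℝ) ≠ 0 := by
      exact_mod_cast (Nat.pos_of_mem_divisors hd).ne'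
    rw [Nat.cast_div (Nat.dvd_of_mem_divisors hd) hd0, div_eq_mul_inv]
  rw [h1, ← mul_sum]
  refine mul_le_mul_of_nonneg_left ?_ (Nat.cast_nonneg k)
  refine le_trans ?_ (harmonic_le_one_add_log k)
  rw [harmonic_eq_sum_Icc]
  push_cast
  refine sum_le_sum_of_subset_of_nonneg ?_ (fun d _ _ => by positivity)
  intro d hd
  exact mem_Icc.2 ⟨Nat.pos_of_mem_divisors hd, Nat.divisor_le hd⟩

theorem LLB : LLBStmt := by
  intro m N hN
  have hK : N < 2 ^ (Nat.log 2 N + 1) := Nat.lt_pow_succ_log_self (by norm_num) N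
  refine ⟨?_, ?_⟩
  · intro k hk hkN
    have h1 : k < 2 ^ (2 ^ m * (Nat.log 2 N + 1)) := by
      refine lt_of_le_of_lt hkN ?_
      rw [mul_comm, pow_mul]
      exact Nat.pow_lt_pow_left hK (by positivity)
    have h2 : Nat.log 2 k < 2 ^ m * (Nat.log 2 N + 1) := Nat.log_lt_of_lt_pow (by omega) h1
    constructor
    · have h3 := sigma_le_log k
      have hk0 : (0 : ℝ) < k := by exact_mod_cast hk
      have h4 : Real.log k ≤ 2 ^ m * (Nat.log 2 N + 1) := by
        have h5 : (k : ℝ) ≤ 2 ^ (2 ^ m * (Nat.log 2 N + 1)) := by exact_mod_cast h1.le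
        have h6 := Real.log_le_log hk0 h5
        rw [Real.log_pow] at h6
        push_cast at h6
        have h7 : Real.log 2 ≤ 1 := by
          have := Real.log_two_lt_d9
          linarith
        have h8 : (0 : ℝ) ≤ 2 ^ m * (Nat.log 2 N + 1) := by positivity
        nlinarith
      have h9 : (sigma 1 k : ℝ) ≤ (LL m N : ℝ) * k := by
        refine h3.trans ?_
        rw [mul_comm]
        refine mul_le_mul_of_nonneg_right ?_ hk0.le
        rw [LL]
        push_cast
        linarith
      exact_mod_cast h9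
    · have h3 := omega_le_log k (by omega)
      refine h3.trans ?_
      rw [LL]
      omega
  · have hN0 : (0 : ℝ) < N := by exact_mod_cast hN
    have h1 : (Nat.log 2 N : ℝ) ≤ 2 * Real.log N := by
      have h2 : 2 ^ Nat.log 2 N ≤ N := Nat.pow_log_le_self 2 (by omega)
      have h3 : (2 : ℝ) ^ Nat.log 2 N ≤ N := by exact_mod_cast h2
      have h4 := Real.log_le_log (by positivity) h3
      rw [Real.log_pow] at h4
      have h5 : (1 / 2 : ℝ) ≤ Real.log 2 := by
        have := Real.log_two_gt_d9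
        linarith
      have h6 : (0 : ℝ) ≤ Nat.log 2 N := Nat.cast_nonneg _
      nlinarith
    rw [LL]
    push_cast
    have h2 : (1 : ℝ) ≤ 2 ^ m := one_le_pow₀ (by norm_num)
    have h3 : (0 : ℝ) ≤ Real.log N := Real.log_nonneg (by exact_mod_cast hN)
    have h4 : (2 : ℝ) ^ (m + 2) = 4 * 2 ^ m := by rw [pow_add]; ring
    rw [h4]
    nlinarith [mul_le_mul_of_nonneg_left h1 (by positivity : (0 : ℝ) ≤ 2 ^ m),
      mul_nonneg (by positivity : (0 : ℝ) ≤ 2 ^ m) h3]

end Pool.PWS
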